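import Pool.Agent.helper22.MT.SC

/-!
# TR10a: products over the primes of the sieve
-/

namespace Pool.Agent.helper39.MT

open Finset

theorem prod_small (k : ℕ) : ∃ C : ℝ, 0 < C ∧ ∀ W R : ℕ, 2 ≤ R →
    (∀ p : ℕ, p.Prime → p ≤ 4 * k + 4 → p ∣ W) →
    ∏ p : PS W R, (1 + (k : ℝ) / (((p : ℕ) : ℝ) - 1)) ^ 2 ≤ C * Real.log R ^ (2 * k) := by
  have hC := one_le_CHP
  refine ⟨CHP ^ (2 * k), by positivity, fun W R hR _ => ?_⟩
  have h0 : ∏ p : PS W R, (1 + (k : ℝ) / (((p : ℕ) : ℝ) - 1)) ^ 2 =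
      ∏ p ∈ PS W R, (1 + (k : ℝ) / ((p : ℝ) - 1)) ^ 2 :=
    prod_coe_sort (PS W R) (fun p => (1 + (k : ℝ) / ((p : ℝ) - 1)) ^ 2)
  have hx : ∀ p ∈ Nat.primesLE R, (0 : ℝ) ≤ 1 / ((p : ℝ) - 1) := by
    intro p hp
    have : (1 : ℝ) < p := by exact_mod_cast (Nat.mem_primesLE.1 hp).2.one_lt
    exact div_nonneg zero_le_one (by linarith)
  have hsub : PS W R ⊆ Nat.primesLE R := filter_subset _ _
  have h1 : ∏ p ∈ PS W R, (1 + (k : ℝ) / ((p : ℝ) - 1)) ^ 2 ≤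
      (∏ p ∈ PS W R, (1 + 1 / ((p : ℝ) - 1))) ^ (2 * k) := by
    rw [← prod_pow]
    refine prod_le_prod (fun p _ => sq_nonneg _) fun p hp => ?_
    have hx1 := hx p (hsub hp)
    have h2 : 1 + (k : ℝ) / ((p : ℝ) - 1) ≤ (1 + 1 / ((p : ℝ) - 1)) ^ k := by
      have := one_add_mul_le_pow (a := 1 / ((p : ℝ) - 1)) (by linarith) k
      rw [mul_one_div] at this
      exact this
    have h3 : (0 : ℝ) ≤ 1 + (k : ℝ) / ((p : ℝ) - 1) := by
      have : (k : ℝ) / ((p : ℝ) - 1) = k * (1 / ((p : ℝ) - 1)) := by ring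
      rw [this]
      positivity
    calc (1 + (k : ℝ) / ((p : ℝ) - 1)) ^ 2 ≤ ((1 + 1 / ((p : ℝ) - 1)) ^ k) ^ 2 :=
          pow_le_pow_left₀ h3 h2 2
      _ = (1 + 1 / ((p : ℝ) - 1)) ^ (2 * k) := by rw [← pow_mul, mul_comm]
  have h2 : ∏ p ∈ PS W R, (1 + 1 / ((p : ℝ) - 1)) ≤
      ∏ p ∈ Nat.primesLE R, (1 + 1 / ((p : ℝ) - 1)) := by
    rw [← prod_sdiff hsub]
    refine le_mul_of_one_le_left (prod_nonneg fun p hp => by linarith [hx p (hsub hp)]) ?_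
    have : ∏ p ∈ Nat.primesLE R \ PS W R, (1 : ℝ) ≤
        ∏ p ∈ Nat.primesLE R \ PS W R, (1 + 1 / ((p : ℝ) - 1)) :=
      prod_le_prod (fun p _ => zero_le_one) fun p hp => by
        linarith [hx p (sdiff_subset hp)]
    rwa [prod_const_one] at this
  have h3 := euler_upper R hR
  have h4 : 0 ≤ ∏ p ∈ PS W R, (1 + 1 / ((p : ℝ) - 1)) :=
    prod_nonneg fun p hp => by linarith [hx p (hsub hp)]
  rw [h0, ← mul_pow]
  exact h1.trans (pow_le_pow_left₀ h4 (h2.trans h3) _)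

theorem pow_omega_le (h : ℕ) : ∃ C : ℝ, 0 < C ∧ ∀ D : ℕ, 0 < D →
    (h : ℝ) ^ D.primeFactors.card ≤ C * (D : ℝ) ^ (1 / 4 : ℝ) := by
  set H : ℝ := max 1 h with hH
  have hH1 : 1 ≤ H := le_max_left _ _
  have hHh : (h : ℝ) ≤ H := le_max_right _ _
  refine ⟨H ^ (h ^ 4 + 1), by positivity, fun D hD => ?_⟩
  have h1 : (h : ℝ) ^ D.primeFactors.card ≤
      ∏ p ∈ D.primeFactors, ((if p < h ^ 4 + 1 then H else 1) * (p : ℝ) ^ (1 / 4 : ℝ)) := by
    rw [← prod_const]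
    refine prod_le_prod (fun p _ => Nat.cast_nonneg h) fun p hp => ?_
    have hp1 : (1 : ℝ) ≤ p := by exact_mod_cast (Nat.prime_of_mem_primeFactors hp).one_le
    split_ifs with hlt
    · have h2 : (1 : ℝ) ≤ (p : ℝ) ^ (1 / 4 : ℝ) := Real.one_le_rpow hp1 (by norm_num)
      nlinarith
    · rw [one_mul]
      have h3 : h ^ 4 ≤ p := by omega
      have h4 : ((h : ℝ) ^ 4) ≤ p := by exact_mod_cast h3
      calc (h : ℝ) = ((h : ℝ) ^ 4) ^ (1 / 4 : ℝ) := by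
            rw [← Real.rpow_natCast, ← Real.rpow_mul (Nat.cast_nonneg h)]
            norm_num
        _ ≤ (p : ℝ) ^ (1 / 4 : ℝ) :=
            Real.rpow_le_rpow (by positivity) h4 (by norm_num)
  rw [prod_mul_distrib] at h1
  refine h1.trans (mul_le_mul ?_ ?_ (prod_nonneg fun p _ => by positivity) (by positivity))
  · rw [← prod_filter, prod_const]
    apply pow_le_pow_right₀ hH1
    calc _ ≤ (range (h ^ 4 + 1)).card := by
          apply card_le_card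
          intro p hp
          rw [mem_filter] at hp
          exact mem_range.2 hp.2
      _ = h ^ 4 + 1 := card_range _
  · rw [Real.finsetProd_rpow _ _ (fun p _ => Nat.cast_nonneg p)]
    apply Real.rpow_le_rpow (prod_nonneg fun p _ => Nat.cast_nonneg p) ?_ (by norm_num)
    have := Nat.le_of_dvd hD (Nat.prod_primeFactors_dvd D)
    have h5 : ((∏ p ∈ D.primeFactors, p : ℕ) : ℝ) ≤ D := Nat.cast_le.2 this
    rw [Nat.cast_prod] at h5
    exact h5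

end Pool.Agent.helper39.MT
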