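import Pool.Agent.helper39.MT.Defs

/-!
# TR4: the pattern of an integer is described by a congruence
-/

namespace Pool.Agent.helper39.MT

open Finset Real ArithmeticFunction

lemma h17_pat_eq_some_iff {k D₀ W R : ℕ} {A B : Fin k → ℕ} (h : Std k D₀ A B W) (p : PS W R)
    (n : ℕ) (i : Fin k) : pat A B (PS W R) n p = some i ↔ (p : ℕ) ∣ A i * n + B i := by
  classical
  have hp := mem_PS.1 p.2
  unfold pat
  constructor
  · intro hh
    split_ifs at hh with h1
    rw [Option.some_inj] at hh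
    rw [← hh]
    exact h1.choose_spec
  · intro hh
    have h1 : ∃ i, (p : ℕ) ∣ A i * n + B i := ⟨i, hh⟩
    rw [dif_pos h1, Option.some_inj]
    by_contra hne
    have h2 := h1.choose_spec
    refine hp.2.2 (h.det _ _ hne p hp.2.1 ?_)
    have e1 : (A h1.choose : ℤ) * B i - (A i : ℤ) * B h1.choose =
        A h1.choose * ((A i * n + B i : ℕ) : ℤ) -
          A i * ((A h1.choose * n + B h1.choose : ℕ) : ℤ) := by
      push_cast
      ring
    rw [e1]
    exact dvd_sub ((Int.natCast_dvd_natCast.2 hh).mul_left _)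
      ((Int.natCast_dvd_natCast.2 h2).mul_left _)

/-- the residue at one prime -/
private lemma exists_residue {k D₀ W R : ℕ} {A B : Fin k → ℕ} (h : Std k D₀ A B W) (p : PS W R)
    (i : Fin k) : ∃ r : ℕ, ∀ n : ℕ, (p : ℕ) ∣ A i * n + B i ↔ n ≡ r [MOD (p : ℕ)] := by
  have hp := mem_PS.1 p.2
  have hpA : ¬ (p : ℕ) ∣ A i := fun hd => hp.2.2 ((h.dvdA i p hp.2.1).1 hd)
  have hcop : Nat.Coprime (A i) p := ((Nat.Prime.coprime_iff_not_dvd hp.2.1).2 hpA).symm
  have : Fact (p : ℕ).Prime := ⟨hp.2.1⟩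
  have hA0 : ((A i : ℕ) : ZMod p) ≠ 0 := by
    rw [Ne, ZMod.natCast_eq_zero_iff]
    exact hpA
  refine ⟨(-(B i : ZMod p) / (A i : ZMod p)).val, fun n => ?_⟩
  rw [← ZMod.natCast_eq_zero_iff, ← ZMod.natCast_eq_natCast_iff]
  rw [ZMod.natCast_val, ZMod.cast_id', id_eq, eq_div_iff hA0]
  push_cast
  constructor
  · intro hh
    linear_combination hh
  · intro hh
    linear_combination hh

lemma h17_ind_eq {ι : Type*} [Fintype ι] [DecidableEq ι] {k : ℕ} (τ e : ι → Option (Fin k)) :
    ind τ e = if ∀ p, τ p ≠ none → e p = τ p then 1 else 0 := by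
  classical
  unfold ind
  split_ifs with hh
  · refine prod_eq_one fun p _ => ?_
    by_cases h1 : τ p = none
    · rw [if_pos h1]
    · rw [if_neg h1, if_pos (hh p h1)]
  · push Not at hh
    obtain ⟨p, h1, h2⟩ := hh
    exact prod_eq_zero (mem_univ p) (by rw [if_neg h1, if_neg h2])

/-- TR4: the pattern of `n` is described by a congruence. -/
theorem ind_pat {k D₀ W R : ℕ} {A B : Fin k → ℕ} (h : Std k D₀ A B W)
    (τ : PS W R → Option (Fin k)) : ∃ ν : ℕ, ν < dd (fun p : PS W R => (p : ℕ)) τ ∧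
      (∀ n, ind τ (pat A B (PS W R) n) =
        if n ≡ ν [MOD dd (fun p : PS W R => (p : ℕ)) τ] then 1 else 0) ∧
      (∀ p i, τ p = some i → (p : ℕ) ∣ A i * ν + B i) := by
  classical
  choose r hr using fun (p : PS W R) (i : Fin k) => exists_residue h p i
  set s : PS W R → ℕ := fun p => if τ p = none then 1 else (p : ℕ) with hs
  set a : PS W R → ℕ := fun p => match τ p with
    | none => 0
    | some i => r p i with ha
  have hs0 : ∀ p, s p ≠ 0 := by
    intro p
    simp only [hs]
    split_ifs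
    · exact one_ne_zero
    · exact (mem_PS.1 p.2).2.1.ne_zero
  have hcop : ∀ p q : PS W R, p ≠ q → Nat.Coprime (s p) (s q) := by
    intro p q hpq
    simp only [hs]
    split_ifs
    · exact Nat.coprime_one_left _
    · exact Nat.coprime_one_left _
    · exact Nat.coprime_one_right _
    · exact (Nat.coprime_primes (mem_PS.1 p.2).2.1 (mem_PS.1 q.2).2.1).2
        fun e => hpq (Subtype.ext e)
  have hdd : dd (fun p : PS W R => (p : ℕ)) τ = ∏ p, s p := rfl
  have hDpos : 0 < ∏ p, s p := Nat.pos_of_ne_zero (prod_ne_zero_iff.2 fun p _ => hs0 p)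
  obtain ⟨x, hx⟩ := Nat.chineseRemainderOfFinset a s univ (fun p _ => hs0 p)
    (fun p _ q _ hpq => hcop p q hpq)
  have hmod : ∀ n m : ℕ, n ≡ m [MOD ∏ p, s p] ↔ ∀ p, n ≡ m [MOD s p] := by
    intro n m
    constructor
    · intro hh p
      exact hh.of_dvd (dvd_prod_of_mem s (mem_univ p))
    · intro hh
      rw [Nat.modEq_iff_dvd]
      push_cast
      refine Finset.prod_dvd_of_coprime ?_ ?_
      · intro p _ q _ hpq
        exact Nat.isCoprime_iff_coprime.2 (hcop p q hpq)
      · intro p _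
        exact (Nat.modEq_iff_dvd.1 (hh p))
  have hν : ∀ p, x % (∏ p, s p) ≡ a p [MOD s p] := by
    intro p
    have h1 : x % (∏ p, s p) ≡ x [MOD ∏ p, s p] := Nat.mod_modEq _ _
    exact ((hmod _ _).1 h1 p).trans (hx p (mem_univ p))
  have hlab : ∀ (p : PS W R) (i : Fin k) (n : ℕ), τ p = some i →
      (n ≡ x % (∏ p, s p) [MOD s p] ↔ (p : ℕ) ∣ A i * n + B i) := by
    intro p i n hτ
    have h1 : s p = p := by simp only [hs, hτ]; simp
    have h2 : a p = r p i := by simp only [ha, hτ]
    have h3 := hν p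
    rw [h1, h2] at h3
    rw [h1, hr p i n]
    exact ⟨fun hh => hh.trans h3, fun hh => hh.trans h3.symm⟩
  refine ⟨x % (∏ p, s p), Nat.mod_lt _ hDpos, ?_, ?_⟩
  · intro n
    rw [h17_ind_eq, hdd]
    congr 1
    rw [hmod, eq_iff_iff]
    constructor
    · intro hh p
      cases hτ : τ p with
      | none =>
        have h1 : s p = 1 := by simp only [hs, hτ]; simp
        rw [h1]
        exact Nat.modEq_one
      | some i =>
        rw [hlab p i n hτ, ← h17_pat_eq_some_iff h p n i, ← hτ]
        exact hh p (by rw [hτ]; exact Option.some_ne_none i)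
    · intro hh p hp
      obtain ⟨i, hτ⟩ := Option.ne_none_iff_exists'.1 hp
      rw [hτ, h17_pat_eq_some_iff h p n i, ← hlab p i n hτ]
      exact hh p
  · intro p i hτ
    rw [← hlab p i _ hτ]

end Pool.Agent.helper39.MT
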